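import Mathlib
import Pool.Agent.H985.Sep
import Pool.Agent.H843R3.Had3.CoverAll

set_option autoImplicit false

/-!
# MP_5e7226_co: bodies with block symmetry in all coordinates but at most one

Let `K` be a convex body in `ℝ^d`, `d ≥ 2`, and `o` an interior point. Take coordinates with origin
`o` with respect to a basis, and divide the coordinates, or all of them except one, into `r` blocks
of sizes `m_1, ..., m_r` with `2^(-m_1) + ... + 2^(-m_r) ≤ 1`. If `K` is invariant under the changes
of signs of the coordinates in the blocks and under their permutations inside the blocks, then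
`2 ^ d` hyperplanes suffice to separate every face of `K` strictly from `o`. Nothing is assumed
about the exceptional coordinate: the sections of `K` by hyperplanes on which it is constant are
block symmetric, but they may vary with it in an arbitrary (convex) way.

The polar body of `K` with respect to `o` has the same symmetries with respect to the dual
basis. It is shown (file `Pool/Agent/H843R3/Had3/CoverAll.lean` and its imports) that it
is covered by `2 ^ d` translates `t + int`; the vectors `t` are the normal vectors of the
separating hyperplanes (helper985, `Pool/Agent/H985/Sep.lean`).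

Sketch. Let `e` be the number of coordinates in blocks. There are `2 ^ e` directions in `ℝ^e`,
one for each vector of signs, which illuminate at once all block symmetric bodies in `ℝ^e` with
given inner and outer radii. The weights of the coordinates of a direction depend on the sign
vector: in each block there is a leading coordinate with large weight, and the weights of the blocks
are of very different sizes. A leading coordinate is chosen such that each partial sign vector in
the block has an extension whose leading coordinate is in its support (induction on the size of
the block). The order of the weights of the blocks is chosen such that every choice of sign vectors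
in some of the blocks can be completed by sign vectors in the other blocks such that the weights of
the latter are smaller: the last block is determined by the position of a hash value (a sum over the
blocks) in intervals of lengths proportional to `2^(-m_j)`, and one continues with the remaining
blocks. Inside the body one can decrease the nonzero coordinates, and exchange mass between the
leading coordinate and the vanishing coordinates of its block. If there is an exceptional
coordinate, these directions, with small last component of the right sign, illuminate the points at
all heights at which the sections have nonempty interior. If the sections at both ends have nonempty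
interior, this gives `2 * 2 ^ e` directions. If an end section is degenerate, it vanishes on some
block, so `2 ^ (e - 1)` directions suffice for a neighbourhood of it, and `2 ^ e` directions
suffice for the remaining heights.
-/

namespace Pool.Agent.Results.MP_5e7226_co.BlockSymmetric

open scoped InnerProductSpace
open Pool.Agent.H985.Sep

/-- the dual basis -/
theorem exists_dual {n : ℕ} (b : Module.Basis (Fin n) ℝ (EuclideanSpace ℝ (Fin n))) :
    ∃ b' : Module.Basis (Fin n) ℝ (EuclideanSpace ℝ (Fin n)),
      ∀ v i, b'.repr v i = ⟪v, b i⟫_ℝ := by
  let L : EuclideanSpace ℝ (Fin n) →ₗ[ℝ] (Fin n → ℝ) :=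
    { toFun := fun v i => ⟪v, b i⟫_ℝ
      map_add' := by
        intro v w
        funext i
        simp [inner_add_left]
      map_smul' := by
        intro c v
        funext i
        simp [real_inner_smul_left] }
  have hL : Function.Injective L := by
    intro v w hvw
    refine InnerProductSpace.ext_inner_right_basis b (fun i => ?_)
    exact congrFun hvw i
  have hd : Module.finrank ℝ (EuclideanSpace ℝ (Fin n)) = Module.finrank ℝ (Fin n → ℝ) := by
    simp
  refine ⟨Module.Basis.ofEquivFun (L.linearEquivOfInjective hL hd), fun v i => ?_⟩
  rw [Module.Basis.ofEquivFun_repr_apply]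
  rfl

/-- **Main theorem.** -/
theorem result (d r : ℕ) (hd : 2 ≤ d) (K : Set (EuclideanSpace ℝ (Fin d)))
    (hKc : IsCompact K) (o : EuclideanSpace ℝ (Fin d)) (ho : o ∈ interior K)
    (b : Module.Basis (Fin d) ℝ (EuclideanSpace ℝ (Fin d))) (block : Fin d → Option (Fin r))
    (hfree : ∀ i l, block i = none → block l = none → i = l)
    (hblocks : ∑ j, (1 / 2 : ℝ) ^ (Finset.univ.filter (fun i => block i = some j)).card ≤ 1)
    (hsign : ∀ i, block i ≠ none → ∀ v, o + v ∈ K → o + (v - (2 * b.repr v i) • b i) ∈ K)
    (hperm : ∀ i l, block i = block l → ∀ v, o + v ∈ K →
      o + ∑ k, b.repr v k • b (Equiv.swap i l k) ∈ K) :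
    ∃ H : Finset (EuclideanSpace ℝ (Fin d) × ℝ), H.card ≤ 2 ^ d ∧ (∀ h ∈ H, h.1 ≠ 0) ∧
      ∀ u x₀ : EuclideanSpace ℝ (Fin d), u ≠ 0 → x₀ ∈ K → (∀ y ∈ K, ⟪u, y⟫_ℝ ≤ ⟪u, x₀⟫_ℝ) →
        ∃ h ∈ H, ⟪h.1, o⟫_ℝ < h.2 ∧ ∀ x ∈ K, ⟪u, x⟫_ℝ = ⟪u, x₀⟫_ℝ → h.2 < ⟪h.1, x⟫_ℝ := by
  obtain ⟨b', hb'⟩ := exists_dual b
  have hdual : ∀ i z, ⟪b' i, z⟫_ℝ = b.repr z i := by
    intro i z
    have e1 : z = ∑ k, b.repr z k • b k := (b.sum_repr z).symm
    conv_lhs => rw [e1]
    rw [inner_sum, Finset.sum_eq_single i]
    · rw [real_inner_smul_right, ← hb']
      simp
    · intro k _ hk
      rw [real_inner_smul_right, ← hb']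
      simp [hk]
    · intro h
      exact absurd (Finset.mem_univ i) h
  obtain ⟨T, hTc, hT⟩ := Pool.Agent.H843R3.Had3.cover_all d r hd
    (polar K o) (convex_polar K o) (isCompact_polar ho) (interior_polar_nonempty hKc ho)
    b' block hfree hblocks
    (by
      intro i hi v hv y hy
      have h := hv _ (hsign i hi (y - o) (by rwa [add_sub_cancel]))
      rw [add_sub_cancel_left, inner_sub_right, real_inner_smul_right] at h
      rw [inner_sub_left, real_inner_smul_left, hdual, hb']
      linarith)
    (by
      intro i l hil v hv y hy
      have h := hv _ (hperm i l hil (y - o) (by rwa [add_sub_cancel]))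
      rw [add_sub_cancel_left, inner_sum] at h
      have e : ⟪∑ k, b'.repr v k • b' (Equiv.swap i l k), y - o⟫_ℝ =
          ∑ k, ⟪v, b.repr (y - o) k • b (Equiv.swap i l k)⟫_ℝ := by
        rw [sum_inner, ← Equiv.sum_comp (Equiv.swap i l)]
        refine Finset.sum_congr rfl fun k _ => ?_
        rw [real_inner_smul_left, real_inner_smul_right, hdual, hb', Equiv.swap_apply_self]
        ring
      rw [e]
      exact h)
  obtain ⟨H, hH, h1, h2⟩ := separate ho T hT
  exact ⟨H, hH.trans hTc, h1, h2⟩

end Pool.Agent.Results.MP_5e7226_co.BlockSymmetric
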