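import Pool.Agent.H210R3.Seg.CapsInd

set_option autoImplicit false

/-!
# MP_5e7226_co: cross-bodies with disjoint caps

The assertion of the problem (the bound `2 ^ d` and the equality case) for every convex body `K` in
`ℝ^d` which is the convex hull of a cross-body `P` centred at `o` and a finite set `X` of points
such that each segment between two points of `X` meets the interior of `P`. In particular, for
every hull of `d + 1` segments through `o`, for the hull of a cross-body and any one point, and
for cross-bodies with pyramids put on up to `2 ^ d` facets. In the dual formulation, with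
illumination: a parallelotope with pairwise disjoint caps cut off by hyperplanes can be
illuminated by `2 ^ d - 1` directions unless it is a parallelotope.

The proof. Let `∏ [-1 / t i, 1 / s i]` be the polar body of `P` in coordinates. The supporting
hyperplanes of `K` are the points of this box outside the open caps `x > 1`, `x ∈ X`, a
hyperplane close to `o` is given by any functional, and it is enough to have for every point `u` of
the box outside the caps a functional with the signs of the tight coordinates of `u` which is
positive on the point `x ∈ X` with `x u = 1`, if there is one. The corners of the box have this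
property: take the corner in the direction of `x` of the face of `u`. To save one corner, let `a` be
a point of `X`, not on the line of a segment of `P`, omit the corner `c` where `a` is maximal, and
use the neighbours of `c` instead, with functionals which are also positive on `a`.
This is possible except if the cap of some `k ∈ X` contains a whole facet of the box opposite
to `c`, and `k` is steeper than `-a` in the direction of its normal vector. If this happens for
`a` and for `k` then `k` is a negative multiple of `a`, their caps contain two opposite facets, the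
segment of `P` in this direction is redundant, and `K` is a cross-body. The points of `X` on the
lines of the segments of `P` are removed before, by enlarging these segments.
-/

open scoped InnerProductSpace

namespace Pool.Agent.Results.MP_5e7226_co.CrossBodyWithCaps

open Pool.Agent.H210R3.Seg in
/-- The assertion of the problem, in every dimension `d ≥ 1`, for every `K` which is the hull of a
cross-body `P` centred at `o` and a finite set `X` such that any two points of `X` are joined by a
segment which meets the interior of `P`. -/
theorem result :
    ∀ d : ℕ, 1 ≤ d → ∀ K : Set (EuclideanSpace ℝ (Fin d)), ∀ o ∈ interior K,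
      (∃ (v : Fin d → EuclideanSpace ℝ (Fin d)) (t : Fin d → ℝ)
        (X : Set (EuclideanSpace ℝ (Fin d))),
        LinearIndependent ℝ v ∧ (∀ i, 0 < t i) ∧ X.Finite ∧
        (∀ x ∈ X, ∀ y ∈ X, x ≠ y → (segment ℝ x y ∩ interior (convexHull ℝ
          (⋃ i, ({o + v i, o - t i • v i} : Set (EuclideanSpace ℝ (Fin d)))))).Nonempty) ∧
        K = convexHull ℝ
          ((⋃ i, ({o + v i, o - t i • v i} : Set (EuclideanSpace ℝ (Fin d)))) ∪ X)) →
      (∃ w : Fin (2 ^ d) → EuclideanSpace ℝ (Fin d), ∃ b : Fin (2 ^ d) → ℝ,
        ∀ u x₀ : EuclideanSpace ℝ (Fin d), u ≠ 0 → x₀ ∈ K →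
          (∀ y ∈ K, ⟪u, y⟫_ℝ ≤ ⟪u, x₀⟫_ℝ) →
            ∃ i, ⟪w i, o⟫_ℝ < b i ∧
              ∀ x ∈ K, ⟪u, x⟫_ℝ = ⟪u, x₀⟫_ℝ → b i < ⟪w i, x⟫_ℝ) ∧
      ((¬ ∃ w : Fin (2 ^ d - 1) → EuclideanSpace ℝ (Fin d), ∃ b : Fin (2 ^ d - 1) → ℝ,
        ∀ u x₀ : EuclideanSpace ℝ (Fin d), u ≠ 0 → x₀ ∈ K →
          (∀ y ∈ K, ⟪u, y⟫_ℝ ≤ ⟪u, x₀⟫_ℝ) →
            ∃ i, ⟪w i, o⟫_ℝ < b i ∧
              ∀ x ∈ K, ⟪u, x⟫_ℝ = ⟪u, x₀⟫_ℝ → b i < ⟪w i, x⟫_ℝ) →
        ∃ v : Fin d → EuclideanSpace ℝ (Fin d), ∃ t : Fin d → ℝ,
          LinearIndependent ℝ v ∧ (∀ i, 0 < t i) ∧
            K = convexHull ℝ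
              (⋃ i, ({o + v i, o - t i • v i} : Set (EuclideanSpace ℝ (Fin d))))) := by
  intro d hd K o ho ⟨v, t, X, hv, ht, hX, hint, hK⟩
  have h := caps_result hd ho hv ht hX hint hK
  refine ⟨?_, fun hno => ?_⟩
  · rcases h with h | h
    · exact h.mono (Nat.sub_le _ _)
    · exact cross_sep hd ho h
  · rcases h with h | h
    · exact absurd h hno
    · exact h

end Pool.Agent.Results.MP_5e7226_co.CrossBodyWithCaps
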