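import Mathlib

set_option autoImplicit false

/-!
# MP_5e7226_co: convex bodies with a polytopal core

Let `K` be a convex body in `ℝ^d`, and let `P ⊆ K` be a polytope with `N` facets (given by `N`
linear inequalities) such that `o` is an interior point of `P` and every (exposed) face of `K`
contains at most one extreme point of `K` outside `P`. Then `N` hyperplanes are enough to separate
all the faces of `K` strictly from `o`; these hyperplanes can be chosen parallel to the facets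
of `P`. Hence the conjectured bound `s(K, o) ≤ 2 ^ d` holds whenever `N ≤ 2 ^ d`.

The proof. Let `F` be a face of `K`. If `F` does not meet `P` then, by Krein-Milman, `F` is a single
point outside `P`, which lies beyond some facet of `P`. Otherwise let `y` be a point of `F ∩ P` which
lies on as few facets of `P` as possible; then these facets contain `F ∩ P`. If the extreme point `x`
of `F` outside `P` were strictly on the inner side of all these facets then a point close to `y` on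
the segment from `y` to `x` would be an interior point of `P` in the face `F`. So there is a facet
of `P` such that its hyperplane contains `F ∩ P`, and `x` is on it or beyond it. A parallel
hyperplane closer to `o` separates `F` from `o`.
-/

open scoped InnerProductSpace
open Filter Topology

namespace Pool.Agent.Results.MP_5e7226_co.FewFacetsCore

/-- Moving a little from a point `y` of the polytope in the direction of a point which is strictly
on the inner side of all facets through `y` leads to the interior of the polytope. -/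
theorem exists_interior {d N : ℕ} (n : Fin N → EuclideanSpace ℝ (Fin d)) (c : Fin N → ℝ)
    (y v : EuclideanSpace ℝ (Fin d)) (hy : ∀ j, ⟪n j, y⟫_ℝ ≤ c j)
    (hv : ∀ j, ⟪n j, y⟫_ℝ = c j → ⟪n j, v⟫_ℝ < 0) :
    ∃ ε : ℝ, 0 < ε ∧ ∀ j, ⟪n j, y + ε • v⟫_ℝ < c j := by
  have h1 : ∀ j, ∀ᶠ ε : ℝ in 𝓝[>] 0, ⟪n j, y + ε • v⟫_ℝ < c j := by
    intro j
    rcases eq_or_lt_of_le (hy j) with h | h
    · filter_upwards [self_mem_nhdsWithin] with ε hε
      have hε' : (0 : ℝ) < ε := hε
      rw [inner_add_right, real_inner_smul_right, h]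
      nlinarith [hv j h]
    · have hc : Continuous fun ε : ℝ => ⟪n j, y + ε • v⟫_ℝ := by fun_prop
      have h2 : Tendsto (fun ε : ℝ => ⟪n j, y + ε • v⟫_ℝ) (𝓝[>] 0) (𝓝 ⟪n j, y⟫_ℝ) := by
        have := hc.tendsto 0
        simp only [zero_smul, add_zero] at this
        exact this.mono_left nhdsWithin_le_nhds
      exact h2.eventually_lt_const h
  have h2 : ∀ᶠ ε : ℝ in 𝓝[>] 0, 0 < ε := self_mem_nhdsWithin
  obtain ⟨ε, h, hε⟩ := ((eventually_all.mpr h1).and h2).exists
  exact ⟨ε, hε, h⟩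

/-- **Main theorem.** -/
theorem result (d N : ℕ) (K : Set (EuclideanSpace ℝ (Fin d))) (hKc : IsCompact K)
    (hK : Convex ℝ K) (o : EuclideanSpace ℝ (Fin d))
    (n : Fin N → EuclideanSpace ℝ (Fin d)) (c : Fin N → ℝ)
    (hPK : {x | ∀ j, ⟪n j, x⟫_ℝ ≤ c j} ⊆ K) (ho : ∀ j, ⟪n j, o⟫_ℝ < c j)
    (hface : ∀ u : EuclideanSpace ℝ (Fin d), u ≠ 0 →
      ∀ x ∈ K.extremePoints ℝ, ∀ y ∈ K.extremePoints ℝ,
      (∀ z ∈ K, ⟪u, z⟫_ℝ ≤ ⟪u, x⟫_ℝ) → (∀ z ∈ K, ⟪u, z⟫_ℝ ≤ ⟪u, y⟫_ℝ) →
      x ∉ {x | ∀ j, ⟪n j, x⟫_ℝ ≤ c j} → y ∉ {x | ∀ j, ⟪n j, x⟫_ℝ ≤ c j} → x = y) :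
    ∃ b : Fin N → ℝ, ∀ u x₀ : EuclideanSpace ℝ (Fin d), u ≠ 0 → x₀ ∈ K →
      (∀ y ∈ K, ⟪u, y⟫_ℝ ≤ ⟪u, x₀⟫_ℝ) →
        ∃ j, ⟪n j, o⟫_ℝ < b j ∧ ∀ x ∈ K, ⟪u, x⟫_ℝ = ⟪u, x₀⟫_ℝ → b j < ⟪n j, x⟫_ℝ := by
  classical
  refine ⟨fun j => (⟪n j, o⟫_ℝ + c j) / 2, fun u x₀ hu hx₀ hmax => ?_⟩
  set P : Set (EuclideanSpace ℝ (Fin d)) := {x | ∀ j, ⟪n j, x⟫_ℝ ≤ c j} with hP
  set F : Set (EuclideanSpace ℝ (Fin d)) := {x | x ∈ K ∧ ⟪u, x⟫_ℝ = ⟪u, x₀⟫_ℝ} with hF
  -- no point of the face is an interior point of `P`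
  have hint : ∀ z, ⟪u, z⟫_ℝ = ⟪u, x₀⟫_ℝ → ¬ ∀ j, ⟪n j, z⟫_ℝ < c j := by
    intro z hz h
    obtain ⟨ε, hε, h2⟩ := exists_interior n c z u (fun j => (h j).le)
      (fun j hj => absurd hj (h j).ne)
    have h3 := hmax _ (hPK (fun j => (h2 j).le))
    rw [inner_add_right, real_inner_smul_right, hz, real_inner_self_eq_norm_sq] at h3
    have h4 : 0 < ‖u‖ := norm_pos_iff.mpr hu
    have h5 : 0 < ε * ‖u‖ ^ 2 := by positivity
    linarith
  -- the face is compact and convex, its extreme points are extreme points of `K`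
  have hFc : IsCompact F := by
    have : F = K ∩ {x | ⟪u, x⟫_ℝ = ⟪u, x₀⟫_ℝ} := rfl
    rw [this]
    exact hKc.inter_right (isClosed_eq (by fun_prop) continuous_const)
  have hFconv : Convex ℝ F := by
    intro x hx y hy a b ha hb hab
    refine ⟨hK hx.1 hy.1 ha hb hab, ?_⟩
    rw [inner_add_right, real_inner_smul_right, real_inner_smul_right, hx.2, hy.2, ← add_mul, hab,
      one_mul]
  have hFext : IsExtreme ℝ K F := by
    refine ⟨fun x hx => hx.1, ?_⟩
    intro x hx y hy z hz hzs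
    obtain ⟨a, b, ha, hb, hab, rfl⟩ := hzs
    have h1 := hz.2
    rw [inner_add_right, real_inner_smul_right, real_inner_smul_right] at h1
    have h2 := hmax x hx
    have h3 := hmax y hy
    refine ⟨hx, le_antisymm h2 ?_⟩
    by_contra h4
    push Not at h4
    have h5 : a * ⟪u, x⟫_ℝ < a * ⟪u, x₀⟫_ℝ := mul_lt_mul_of_pos_left h4 ha
    have h6 : b * ⟪u, y⟫_ℝ ≤ b * ⟪u, x₀⟫_ℝ := mul_le_mul_of_nonneg_left h3 hb.le
    have h7 : a * ⟪u, x₀⟫_ℝ + b * ⟪u, x₀⟫_ℝ = ⟪u, x₀⟫_ℝ := by rw [← add_mul, hab, one_mul]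
    linarith
  have hKM := closure_convexHull_extremePoints hFc hFconv
  have hsub : F.extremePoints ℝ ⊆ K.extremePoints ℝ := hFext.extremePoints_subset_extremePoints
  -- it is enough to look at the extreme points
  have key : ∀ j, (∀ e ∈ F.extremePoints ℝ, c j ≤ ⟪n j, e⟫_ℝ) →
      ⟪n j, o⟫_ℝ < (⟪n j, o⟫_ℝ + c j) / 2 ∧
        ∀ x ∈ K, ⟪u, x⟫_ℝ = ⟪u, x₀⟫_ℝ → (⟪n j, o⟫_ℝ + c j) / 2 < ⟪n j, x⟫_ℝ := by
    intro j hj
    have h1 := ho j
    refine ⟨by linarith, fun x hx hxu => ?_⟩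
    have hxF : x ∈ F := ⟨hx, hxu⟩
    have h2 : F ⊆ {x | c j ≤ ⟪n j, x⟫_ℝ} := by
      rw [← hKM]
      refine closure_minimal (convexHull_min hj ?_) (isClosed_le continuous_const (by fun_prop))
      intro x hx y hy a b ha hb hab
      show c j ≤ ⟪n j, a • x + b • y⟫_ℝ
      have hx' : c j ≤ ⟪n j, x⟫_ℝ := hx
      have hy' : c j ≤ ⟪n j, y⟫_ℝ := hy
      rw [inner_add_right, real_inner_smul_right, real_inner_smul_right]
      have h3 : a * c j + b * c j = c j := by rw [← add_mul, hab, one_mul]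
      nlinarith
    have h3 : c j ≤ ⟪n j, x⟫_ℝ := h2 hxF
    linarith
  have huniq : ∀ x ∈ F.extremePoints ℝ, ∀ y ∈ F.extremePoints ℝ, x ∉ P → y ∉ P → x = y := by
    intro x hx y hy hxP hyP
    refine hface u hu x (hsub hx) y (hsub hy) ?_ ?_ hxP hyP
    · intro z hz; rw [hx.1.2]; exact hmax z hz
    · intro z hz; rw [hy.1.2]; exact hmax z hz
  by_cases hFP : (F ∩ P).Nonempty
  · -- a point of `F ∩ P` on as few facets as possible
    let J : EuclideanSpace ℝ (Fin d) → Finset (Fin N) :=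
      fun y => Finset.univ.filter fun j => ⟪n j, y⟫_ℝ = c j
    obtain ⟨y, ⟨hyF, hyP⟩, hymin⟩ : ∃ y ∈ F ∩ P, ∀ p ∈ F ∩ P, (J y).card ≤ (J p).card := by
      obtain ⟨y, hy⟩ := hFP
      have hex : ∃ k, ∃ y ∈ F ∩ P, (J y).card = k := ⟨_, y, hy, rfl⟩
      obtain ⟨y', hy', hk⟩ := Nat.find_spec hex
      refine ⟨y', hy', fun p hp => ?_⟩
      rw [hk]
      exact Nat.find_min' hex ⟨p, hp, rfl⟩
    have hall : ∀ j ∈ J y, ∀ p ∈ F ∩ P, ⟪n j, p⟫_ℝ = c j := by
      intro j hj p hp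
      by_contra hne
      have hjy : ⟪n j, y⟫_ℝ = c j := (Finset.mem_filter.mp hj).2
      have hpP : ∀ j, ⟪n j, p⟫_ℝ ≤ c j := hp.2
      have hyP' : ∀ j, ⟪n j, y⟫_ℝ ≤ c j := hyP
      set m := (1 / 2 : ℝ) • y + (1 / 2 : ℝ) • p with hm
      have hmi : ∀ j, ⟪n j, m⟫_ℝ = (⟪n j, y⟫_ℝ + ⟪n j, p⟫_ℝ) / 2 := by
        intro j
        rw [hm, inner_add_right, real_inner_smul_right, real_inner_smul_right]
        ring
      have hmF : m ∈ F := hFconv hyF hp.1 (by norm_num) (by norm_num) (by norm_num)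
      have hmP : m ∈ P := by
        intro j
        rw [hmi]
        linarith [hpP j, hyP' j]
      have hlt : (J m).card < (J y).card := by
        apply Finset.card_lt_card
        refine ⟨fun i hi => ?_, fun hsub' => ?_⟩
        · have hi' := (Finset.mem_filter.mp hi).2
          rw [hmi] at hi'
          exact Finset.mem_filter.mpr ⟨Finset.mem_univ _, by linarith [hpP i, hyP' i]⟩
        · have hj' := (Finset.mem_filter.mp (hsub' hj)).2
          rw [hmi] at hj'
          exact hne (by linarith)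
      exact absurd (hymin m ⟨hmF, hmP⟩) (by omega)
    by_cases hx : ∃ x ∈ F.extremePoints ℝ, x ∉ P
    · obtain ⟨x, hxe, hxP⟩ := hx
      have hj : ∃ j ∈ J y, c j ≤ ⟪n j, x⟫_ℝ := by
        by_contra hno
        push Not at hno
        obtain ⟨ε, hε, h2⟩ := exists_interior n c y (x - y) hyP (fun j hj => by
          have := hno j (Finset.mem_filter.mpr ⟨Finset.mem_univ _, hj⟩)
          rw [inner_sub_right, hj]
          linarith)
        refine hint _ ?_ h2
        rw [inner_add_right, real_inner_smul_right, inner_sub_right, hyF.2, hxe.1.2]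
        ring
      obtain ⟨j, hjJ, hjx⟩ := hj
      refine ⟨j, key j fun e he => ?_⟩
      by_cases heP : e ∈ P
      · exact (hall j hjJ e ⟨he.1, heP⟩).ge
      · rw [huniq e he x hxe heP hxP]
        exact hjx
    · push Not at hx
      have hj : ∃ j, j ∈ J y := by
        by_contra hno
        push Not at hno
        refine hint y hyF.2 fun j => lt_of_le_of_ne (hyP j) fun h => ?_
        exact hno j (Finset.mem_filter.mpr ⟨Finset.mem_univ _, h⟩)
      obtain ⟨j, hjJ⟩ := hj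
      exact ⟨j, key j fun e he => (hall j hjJ e ⟨he.1, hx e he⟩).ge⟩
  · -- the face is a single point outside `P`
    have hFne : F.Nonempty := ⟨x₀, hx₀, rfl⟩
    obtain ⟨x, hxe⟩ := hFc.extremePoints_nonempty hFne
    have hout : ∀ e ∈ F.extremePoints ℝ, e ∉ P := fun e he heP => hFP ⟨e, he.1, heP⟩
    have hxP := hout x hxe
    have : ∃ j, c j < ⟪n j, x⟫_ℝ := by
      by_contra hno
      push Not at hno
      exact hxP hno
    obtain ⟨j, hj⟩ := this
    refine ⟨j, key j fun e he => ?_⟩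
    rw [huniq e he x hxe (hout e he) hxP]
    exact hj.le

end Pool.Agent.Results.MP_5e7226_co.FewFacetsCore
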