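import Mathlib
import Pool.Agent.H765R3.Had.Sep

set_option autoImplicit false

/-!
# MP_5e7226_co: convex bodies with a symmetry group acting blockwise

Let `K` be a convex body in `ℝ^(m 1) ⊕ ... ⊕ ℝ^(m r)`, `o` an interior point, and suppose that `K`
is invariant about `o` under isometries of the single blocks such that the images of each unit
vector of the block `i` come within the angle `arcsin (1 / m i)` of each unit vector. Then
`s(K, o) ≤ ∏ (m i + 2) - 1`, which is smaller than `2 ^ d` if all `m i ≥ 2`. Example: `K` in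
`ℂ^r`, invariant under the multiplication of each coordinate by a root of unity of order at
least 7.

The proof, for `o = 0`. Take a regular simplex with centre `0` in each block. For `u ≠ 0` let `w`
have as component `i` a vertex at an angle at most `arccos (1 / m i)` from `u i` if `u i ≠ 0`,
and `0` otherwise. Let `x` maximise `⟪u, ·⟫` on `K`. Then `⟪u i, g (x i)⟫ ≤ ⟪u i, x i⟫` for all
the isometries `g`, so that the angle between `u i` and `x i` is smaller than `arcsin (1 / m i)` if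
both are not `0`, and `⟪w i, x i⟫ > 0`. There is such an `i`, since `⟪u, x⟫ > 0`. So
`⟪w, x⟫ > 0` on the whole face of `u`; compactness gives a uniform positive lower bound.
-/

namespace Pool.Agent.Results.MP_5e7226_co.RotationalBlocks

open scoped InnerProductSpace

/-- `ℝ^(m 1) ⊕ ... ⊕ ℝ^(m r)` with its Euclidean structure. -/
abbrev Sum {r : ℕ} (m : Fin r → ℕ) : Type := PiLp 2 fun i => EuclideanSpace ℝ (Fin (m i))

/-- The hyperplanes `⟪w, x⟫ = b`, `(w, b)` in `H`, strictly separate from `o` each face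
`{x ∈ K : ⟪u, x⟫ = max}`, `u ≠ 0`, of `K`. -/
def Separates {V : Type*} [NormedAddCommGroup V] [InnerProductSpace ℝ V] (K : Set V) (o : V)
    (H : Finset (V × ℝ)) : Prop :=
  ∀ u x₀ : V, u ≠ 0 → x₀ ∈ K → (∀ y ∈ K, ⟪u, y⟫_ℝ ≤ ⟪u, x₀⟫_ℝ) →
    ∃ h ∈ H, ⟪h.1, o⟫_ℝ < h.2 ∧ ∀ x ∈ K, ⟪u, x⟫_ℝ = ⟪u, x₀⟫_ℝ → h.2 < ⟪h.1, x⟫_ℝ

/-- For all unit vectors `u`, `v` some `g` in `Γ` has `⟪u, g v⟫ > c`. -/
def Spread {E : Type*} [NormedAddCommGroup E] [InnerProductSpace ℝ E] (c : ℝ)
    (Γ : Set (E ≃ₗᵢ[ℝ] E)) : Prop :=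
  ∀ u v : E, ‖u‖ = 1 → ‖v‖ = 1 → ∃ g ∈ Γ, c < ⟪u, g v⟫_ℝ

/-- `K` is invariant about `o` under the maps `g` in `Γ` applied to the block `i`. -/
def InvariantAt {r : ℕ} {m : Fin r → ℕ} (i : Fin r)
    (Γ : Set (EuclideanSpace ℝ (Fin (m i)) ≃ₗᵢ[ℝ] EuclideanSpace ℝ (Fin (m i))))
    (K : Set (Sum m)) (o : Sum m) : Prop :=
  ∀ g ∈ Γ, ∀ x ∈ K, ∀ y : Sum m, y i - o i = g (x i - o i) → (∀ j, j ≠ i → y j = x j) → y ∈ K

/-- **Main theorem.** -/
theorem result (r : ℕ) (m : Fin r → ℕ) (hm : ∀ i, 1 ≤ m i)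
    (Γ : ∀ i, Set (EuclideanSpace ℝ (Fin (m i)) ≃ₗᵢ[ℝ] EuclideanSpace ℝ (Fin (m i))))
    (hΓ : ∀ i, Spread √(1 - 1 / (m i : ℝ) ^ 2) (Γ i))
    (K : Set (Sum m)) (_hK : Convex ℝ K) (hKc : IsCompact K) (o : Sum m) (ho : o ∈ interior K)
    (hinv : ∀ i, InvariantAt i (Γ i) K o) :
    ∃ H : Finset (Sum m × ℝ), H.card ≤ ∏ i, (m i + 2) - 1 ∧
      ((∀ i, 2 ≤ m i) → H.card < 2 ^ ∑ i, m i) ∧ Separates K o H := by
  classical
  set K' : Set (Sum m) := (fun x => x + o) ⁻¹' K with hK'
  have hc : IsCompact K' := by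
    have : K' = (Homeomorph.addRight o) ⁻¹' K := rfl
    rw [this]
    exact (Homeomorph.addRight o).isCompact_preimage.2 hKc
  have h0 : 0 ∈ interior K' := by
    have : K' = (Homeomorph.addRight o) ⁻¹' K := rfl
    rw [this, ← (Homeomorph.addRight o).preimage_interior]
    simpa using ho
  obtain ⟨H, hH, hsep⟩ := Pool.Agent.H765R3.Had.Grp.separate r m hm Γ hΓ K' hc h0 (by
    intro i g hg x hx y hy hj
    refine hinv i g hg (x + o) hx (y + o) ?_ fun j hji => ?_
    · rw [PiLp.add_apply, PiLp.add_apply, add_sub_cancel_right, add_sub_cancel_right, hy]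
    · rw [PiLp.add_apply, PiLp.add_apply, hj j hji])
  refine ⟨H.image fun h => (h.1, h.2 + ⟪h.1, o⟫_ℝ), Finset.card_image_le.trans hH, ?_, ?_⟩
  · intro h2
    refine lt_of_le_of_lt (Finset.card_image_le.trans hH) ?_
    have h1 : ∏ i, (m i + 2) ≤ 2 ^ ∑ i, m i := by
      rw [← Finset.prod_pow_eq_pow_sum]
      refine Finset.prod_le_prod' fun i _ => ?_
      have : ∀ n : ℕ, 2 ≤ n → n + 2 ≤ 2 ^ n := by
        intro n hn
        induction n, hn using Nat.le_induction with
        | base => norm_num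
        | succ n hn ih => rw [pow_succ]; omega
      exact this (m i) (h2 i)
    have h3 : 0 < ∏ i, (m i + 2) := Finset.prod_pos fun i _ => by omega
    omega
  · intro u x₀ hu hx₀ hmax
    obtain ⟨h, hh, h1, h2⟩ := hsep u (x₀ - o) hu (by simpa [hK'] using hx₀) (by
      intro y hy
      have := hmax (y + o) hy
      rw [inner_add_right] at this
      rw [inner_sub_right]
      linarith)
    refine ⟨_, Finset.mem_image_of_mem _ hh, ?_, fun x hx hxe => ?_⟩
    · rw [inner_zero_right] at h1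
      simp only
      linarith
    · have h3 := h2 (x - o) (by simpa [hK'] using hx) (by
        rw [inner_sub_right, inner_sub_right, hxe])
      rw [inner_sub_right] at h3
      simp only
      linarith

end Pool.Agent.Results.MP_5e7226_co.RotationalBlocks
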